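import Mathlib

set_option autoImplicit false

/-!
# Incidences together with distances: the count `2|V'| + 2|F'| - 3` does not characterise independence

An incidence structure `S = (V, F; I)` is given by finite types `V`, `F` and `I : Finset (V × F)`.
The example below is the Pappus configuration with one of its nine lines removed
(9 points, 8 lines, 24 incidences), together with 6 distance constraints.
-/

namespace Pool.Agent.Results.MP_b5aa09_co.PappusDisproof

/-- A point `(x i, y i)` for every vertex `i` and a non-vertical line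
`{(X, Y) | A j * X + Y + C j = 0}` for every face `j`. -/
structure Scene (V F : Type) where
  /-- first coordinates of the points -/
  x : V → ℝ
  /-- second coordinates of the points -/
  y : V → ℝ
  /-- first coefficients of the lines -/
  A : F → ℝ
  /-- constant coefficients of the lines -/
  C : F → ℝ

/-- The real variables `(u, w, U, W)`: `u i, w i` for `i : V` and `U j, W j` for `j : F`. -/
abbrev Vars (V F : Type) : Type := (V → ℝ) × (V → ℝ) × (F → ℝ) × (F → ℝ)

variable {V F : Type}

/-- Point `i` lies on line `j` in the scene `s`. -/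
def Scene.On (s : Scene V F) (i : V) (j : F) : Prop := s.A j * s.x i + s.y i + s.C j = 0

/-- The scene `s` is a 2-scene realising `(V, F; I)`: every incidence in `I` holds in `s`. -/
def Scene.Realises (s : Scene V F) (I : Finset (V × F)) : Prop := ∀ ij ∈ I, s.On ij.1 ij.2

/-- The linear forms in the variables `(u, w, U, W)`. -/
abbrev Form (V F : Type) : Type := Module.Dual ℝ (Vars V F)

/-- The linear form `A^j u_i + x_i U^j + w_i + W^j` of the incidence `(i, j)`. -/
def Scene.incForm (s : Scene V F) (ij : V × F) : Form V F where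
  toFun v := s.A ij.2 * v.1 ij.1 + s.x ij.1 * v.2.2.1 ij.2 + v.2.1 ij.1 + v.2.2.2 ij.2
  map_add' a b := by simp only [Prod.fst_add, Prod.snd_add, Pi.add_apply]; ring
  map_smul' r a := by
    simp only [Prod.smul_fst, Prod.smul_snd, Pi.smul_apply, smul_eq_mul, RingHom.id_apply]; ring

/-- The linear form `(x_i - x_k)(u_i - u_k) + (y_i - y_k)(w_i - w_k)`. -/
def Scene.pairForm (s : Scene V F) (i k : V) : Form V F where
  toFun v := (s.x i - s.x k) * (v.1 i - v.1 k) + (s.y i - s.y k) * (v.2.1 i - v.2.1 k)
  map_add' a b := by simp only [Prod.fst_add, Prod.snd_add, Pi.add_apply]; ring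
  map_smul' r a := by
    simp only [Prod.smul_fst, Prod.smul_snd, Pi.smul_apply, smul_eq_mul, RingHom.id_apply]; ring

theorem Scene.pairForm_comm (s : Scene V F) (i k : V) : s.pairForm i k = s.pairForm k i := by
  ext v <;> simp [Scene.pairForm] <;> ring

/-- The linear form of the distance constraint given by an unordered pair of vertices. -/
def Scene.distForm (s : Scene V F) (e : Sym2 V) : Form V F :=
  Sym2.lift ⟨s.pairForm, s.pairForm_comm⟩ e

/-- `E ∪ I` is independent at the scene `s`: the family of the linear forms of all distance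
constraints in `E` and all incidences in `I` is linearly independent. -/
def Scene.Independent (s : Scene V F) (E : Finset (Sym2 V)) (I : Finset (V × F)) : Prop :=
  LinearIndependent ℝ
    (Sum.elim (fun e : {e // e ∈ E} => s.distForm e.1) (fun ij : {ij // ij ∈ I} => s.incForm ij.1))

/-- `(V, F; I)` is independent for plane incidence: `I` is independent at some 2-scene
realising it. -/
def IndependentForPlaneIncidence (I : Finset (V × F)) : Prop :=
  ∃ s : Scene V F, s.Realises I ∧ s.Independent ∅ I

/-- The scene is a non-degenerate realisation of `(V, F; I)`: its points are pairwise distinct, its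
lines are pairwise distinct, and the incidences holding in it are exactly those of `I`. -/
def Scene.Nondegenerate (s : Scene V F) (I : Finset (V × F)) : Prop :=
  Function.Injective (fun i => (s.x i, s.y i)) ∧ Function.Injective (fun j => (s.A j, s.C j)) ∧
    ∀ i j, s.On i j ↔ (i, j) ∈ I

/-- `(V, F; I)` is a linear space: two distinct vertices are never on two distinct faces. -/
def LinearSpace (I : Finset (V × F)) : Prop :=
  ∀ i k : V, ∀ j l : F, i ≠ k → j ≠ l → (i, j) ∈ I → (k, j) ∈ I → (i, l) ∈ I → (k, l) ∉ I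

/-- The vertices occurring in `E' ∪ I'`. -/
def vertexSet [Fintype V] [DecidableEq V] (E' : Finset (Sym2 V)) (I' : Finset (V × F)) :
    Finset V :=
  Finset.univ.filter (fun i => (∃ e ∈ E', i ∈ e) ∨ (∃ ij ∈ I', ij.1 = i))

/-- The faces occurring in `I'`. -/
def faceSet [DecidableEq F] (I' : Finset (V × F)) : Finset F := I'.image Prod.snd

/-- The count `|E'| + |I'| ≤ 2|V'| + 2|F'| - 3` for all `E' ⊆ E`, `I' ⊆ I`, not both empty. -/
def CountHolds [Fintype V] [DecidableEq V] [DecidableEq F]
    (E : Finset (Sym2 V)) (I : Finset (V × F)) : Prop :=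
  ∀ E' ⊆ E, ∀ I' ⊆ I, (E'.Nonempty ∨ I'.Nonempty) →
    E'.card + I'.card + 3 ≤ 2 * (vertexSet E' I').card + 2 * (faceSet I').card

/-! ### The example -/

/-- The incidences. -/
def incs : Finset (Fin 9 × Fin 8) :=
  {(0,0),(1,0),(2,0),(3,1),(4,1),(5,1),(0,2),(4,2),(6,2),(1,3),(3,3),(6,3),
   (0,4),(5,4),(7,4),(2,5),(3,5),(7,5),(1,6),(5,6),(8,6),(2,7),(4,7),(8,7)}

/-- The distance constraints. -/
def dists : Finset (Sym2 (Fin 9)) :=
  {s(0,4), s(1,5), s(2,3), s(6,7), s(7,8), s(6,8)}

/-! ### The count -/

/-- The nodes: vertices and faces. -/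
abbrev Node : Type := Fin 9 ⊕ Fin 8

/-- The two end nodes of the 30 constraints, incidences first. -/
def ends : Fin 30 → Node × Node := ![
  (.inl 0, .inr 0), (.inl 1, .inr 0), (.inl 2, .inr 0),
  (.inl 3, .inr 1), (.inl 4, .inr 1), (.inl 5, .inr 1),
  (.inl 0, .inr 2), (.inl 4, .inr 2), (.inl 6, .inr 2),
  (.inl 1, .inr 3), (.inl 3, .inr 3), (.inl 6, .inr 3),
  (.inl 0, .inr 4), (.inl 5, .inr 4), (.inl 7, .inr 4),
  (.inl 2, .inr 5), (.inl 3, .inr 5), (.inl 7, .inr 5),
  (.inl 1, .inr 6), (.inl 5, .inr 6), (.inl 8, .inr 6),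
  (.inl 2, .inr 7), (.inl 4, .inr 7), (.inl 8, .inr 7),
  (.inl 0, .inl 4), (.inl 1, .inl 5), (.inl 2, .inl 3),
  (.inl 6, .inl 7), (.inl 7, .inl 8), (.inl 6, .inl 8)]

/-- Bit masks of 30 orientations. -/
def mask : Fin 30 → ℕ := ![57064816, 254765784, 124120432, 55438725, 5102469, 21883781,
  157735987, 140991029, 693561885, 170844507, 137318750, 674685275, 23498099, 3083125,
  272042869, 103574877, 2907486, 271870813, 35777395, 2222963, 8510326, 67496797, 383925,
  1170294, 140991221, 154102518, 3005790, 817060726, 11754358, 145972086]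

/-- The end node to which the `t`-th constraint is charged in the `r`-th orientation. -/
def tail (r t : Fin 30) : Node := if (mask r).testBit t then (ends t).2 else (ends t).1

theorem tail_le_two : ∀ r : Fin 30, ∀ v : Node,
    (Finset.univ.filter (fun t => tail r t = v)).card ≤ 2 := by
  decide +kernel

theorem tail_ends : ∀ r : Fin 30,
    (Finset.univ.filter (fun t => tail r t = (ends r).1)).card +
    (Finset.univ.filter (fun t => tail r t = (ends r).2)).card ≤ 1 := by
  decide +kernel

theorem ends_ne : ∀ r : Fin 30, (ends r).1 ≠ (ends r).2 := by decide +kernel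

/-- Nodes occurring in a set of constraints. -/
def supp (T : Finset (Fin 30)) : Finset Node :=
  T.image (fun t => (ends t).1) ∪ T.image (fun t => (ends t).2)

theorem tail_mem_supp (r t : Fin 30) (T : Finset (Fin 30)) (ht : t ∈ T) : tail r t ∈ supp T := by
  unfold tail supp
  split_ifs
  · exact Finset.mem_union_right _ (Finset.mem_image_of_mem _ ht)
  · exact Finset.mem_union_left _ (Finset.mem_image_of_mem _ ht)

theorem sparse (T : Finset (Fin 30)) (hT : T.Nonempty) : T.card + 3 ≤ 2 * (supp T).card := by
  obtain ⟨r, hr⟩ := hT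
  have h1 : T.card = ∑ v ∈ supp T, (T.filter (fun t => tail r t = v)).card :=
    Finset.card_eq_sum_card_fiberwise (fun t ht => tail_mem_supp r t T ht)
  have hle : ∀ v, (T.filter (fun t => tail r t = v)).card ≤
      (Finset.univ.filter (fun t => tail r t = v)).card := fun v =>
    Finset.card_le_card (Finset.filter_subset_filter _ (Finset.subset_univ _))
  have ha : (ends r).1 ∈ supp T := Finset.mem_union_left _ (Finset.mem_image_of_mem _ hr)
  have hb : (ends r).2 ∈ supp T := Finset.mem_union_right _ (Finset.mem_image_of_mem _ hr)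
  have hb' : (ends r).2 ∈ (supp T).erase (ends r).1 :=
    Finset.mem_erase.2 ⟨(ends_ne r).symm, hb⟩
  rw [← Finset.add_sum_erase _ _ ha, ← Finset.add_sum_erase _ _ hb'] at h1
  have h2 : ∑ v ∈ ((supp T).erase (ends r).1).erase (ends r).2,
      (T.filter (fun t => tail r t = v)).card ≤
      (((supp T).erase (ends r).1).erase (ends r).2).card * 2 := by
    apply Finset.sum_le_card_nsmul
    intro v _
    exact (hle v).trans (tail_le_two r v)
  have h3 : (((supp T).erase (ends r).1).erase (ends r).2).card = (supp T).card - 1 - 1 := by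
    rw [Finset.card_erase_of_mem hb', Finset.card_erase_of_mem ha]
  have h4 : 2 ≤ (supp T).card := by
    have h5 : ({(ends r).1, (ends r).2} : Finset Node) ⊆ supp T := by
      intro v hv
      simp only [Finset.mem_insert, Finset.mem_singleton] at hv
      rcases hv with rfl | rfl
      · exact ha
      · exact hb
    have h6 := Finset.card_le_card h5
    rwa [Finset.card_pair (ends_ne r)] at h6
  have h7 := tail_ends r
  have h8 := hle (ends r).1
  have h9 := hle (ends r).2
  omega

/-- The `t`-th constraint, incidences first. -/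
def con : Fin 30 → Sym2 (Fin 9) ⊕ (Fin 9 × Fin 8) := fun t =>
  match ends t with
  | (.inl i, .inr j) => .inr (i, j)
  | (.inl i, .inl k) => .inl s(i, k)
  | (.inr _, _) => .inr (0, 0)

theorem con_inj : ∀ a b : Fin 30, con a = con b → a = b := by decide +kernel

theorem con_surj_inc : ∀ ij ∈ incs, ∃ t, con t = .inr ij := by decide +kernel

theorem con_surj_dist : ∀ e ∈ dists, ∃ t, con t = .inl e := by decide +kernel

theorem con_ends_inc : ∀ t : Fin 30, ∀ ij, con t = .inr ij → ends t = (.inl ij.1, .inr ij.2) := by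
  decide +kernel

theorem con_ends_dist : ∀ t : Fin 30, (con t).isLeft →
    ∃ i k : Fin 9, ends t = (.inl i, .inl k) ∧ con t = .inl s(i, k) := by
  decide +kernel

theorem countHolds : CountHolds dists incs := by
  intro E' hE I' hI hne
  classical
  set T : Finset (Fin 30) := Finset.univ.filter (fun t => con t ∈ E'.disjSum I') with hTdef
  have himg : T.image con = E'.disjSum I' := by
    ext c
    simp only [hTdef, Finset.mem_image, Finset.mem_filter, Finset.mem_univ, true_and]
    constructor
    · rintro ⟨t, ht, rfl⟩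
      exact ht
    · intro hc
      rcases c with e | ij
      · have he : e ∈ E' := by simpa using hc
        obtain ⟨t, ht⟩ := con_surj_dist e (hE he)
        exact ⟨t, by rw [ht]; exact hc, ht⟩
      · have he : ij ∈ I' := by simpa using hc
        obtain ⟨t, ht⟩ := con_surj_inc ij (hI he)
        exact ⟨t, by rw [ht]; exact hc, ht⟩
  have hcard : T.card = E'.card + I'.card := by
    rw [← Finset.card_disjSum, ← himg, Finset.card_image_of_injective]
    intro a b hab
    exact con_inj a b hab
  have hTne : T.Nonempty := by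
    rw [← Finset.card_pos, hcard]
    rcases hne with h | h
    · have := Finset.card_pos.2 h
      omega
    · have := Finset.card_pos.2 h
      omega
  have hs := sparse T hTne
  have hsub : supp T ⊆ (vertexSet E' I').disjSum (faceSet I') := by
    intro v hv
    unfold supp at hv
    rw [Finset.mem_union, Finset.mem_image, Finset.mem_image] at hv
    have key : ∀ t ∈ T, (ends t).1 ∈ (vertexSet E' I').disjSum (faceSet I') ∧
        (ends t).2 ∈ (vertexSet E' I').disjSum (faceSet I') := by
      intro t ht
      have ht' : con t ∈ E'.disjSum I' := (Finset.mem_filter.1 ht).2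
      rcases hc : con t with e | ij
      · obtain ⟨i, k, h1, h2⟩ := con_ends_dist t (by rw [hc]; rfl)
        rw [h2] at ht'
        have he : s(i, k) ∈ E' := by simpa using ht'
        rw [h1]
        simp only [Finset.inl_mem_disjSum, vertexSet, Finset.mem_filter, Finset.mem_univ, true_and]
        exact ⟨Or.inl ⟨_, he, Sym2.mem_mk_left _ _⟩, Or.inl ⟨_, he, Sym2.mem_mk_right _ _⟩⟩
      · have h1 := con_ends_inc t ij hc
        rw [hc] at ht'
        have he : ij ∈ I' := by simpa using ht'
        rw [h1]
        simp only [Finset.inl_mem_disjSum, Finset.inr_mem_disjSum, vertexSet, Finset.mem_filter,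
          Finset.mem_univ, true_and, faceSet, Finset.mem_image]
        exact ⟨Or.inr ⟨_, he, rfl⟩, ⟨_, he, rfl⟩⟩
    rcases hv with ⟨t, ht, rfl⟩ | ⟨t, ht, rfl⟩
    · exact (key t ht).1
    · exact (key t ht).2
  have h10 := Finset.card_le_card hsub
  rw [Finset.card_disjSum] at h10
  omega

/-! ### Linear algebra -/

theorem independent_iff {V F : Type} (s : Scene V F) (E : Finset (Sym2 V)) (I : Finset (V × F)) :
    s.Independent E I ↔ ∀ (c : Sym2 V → ℝ) (d : V × F → ℝ),
      (∑ e ∈ E, c e • s.distForm e) + (∑ ij ∈ I, d ij • s.incForm ij) = 0 →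
        (∀ e ∈ E, c e = 0) ∧ (∀ ij ∈ I, d ij = 0) := by
  classical
  unfold Scene.Independent
  rw [Fintype.linearIndependent_iff]
  constructor
  · intro h c d hcd
    have := h (Sum.elim (fun e : {e // e ∈ E} => c e.1) (fun ij : {ij // ij ∈ I} => d ij.1)) (by
      rw [Fintype.sum_sum_type]
      simp only [Sum.elim_inl, Sum.elim_inr]
      rw [Finset.sum_coe_sort E (fun e => c e • s.distForm e),
        Finset.sum_coe_sort I (fun ij => d ij • s.incForm ij)]
      exact hcd)
    exact ⟨fun e he => this (.inl ⟨e, he⟩), fun ij hij => this (.inr ⟨ij, hij⟩)⟩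
  · intro h g hg
    rw [Fintype.sum_sum_type] at hg
    simp only [Sum.elim_inl, Sum.elim_inr] at hg
    have := h (fun e => if he : e ∈ E then g (.inl ⟨e, he⟩) else 0)
      (fun ij => if hij : ij ∈ I then g (.inr ⟨ij, hij⟩) else 0) (by
        rw [← Finset.sum_coe_sort E, ← Finset.sum_coe_sort I]
        simpa using hg)
    rintro (⟨e, he⟩ | ⟨ij, hij⟩)
    · have h1 := this.1 e he
      simpa [he] using h1
    · have h1 := this.2 ij hij
      simpa [hij] using h1

/-! ### A scene at which the incidences are independent -/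

/-- A realisation of the Pappus configuration minus a line, with all points and lines distinct. -/
noncomputable def scene : Scene (Fin 9) (Fin 8) where
  x := ![0, 1, 2, 5, 7, 10, 7/3, 20/7, 13/4]
  y := ![0, 0, 0, 1, 1, 1, 1/3, 2/7, 1/4]
  A := ![0, 0, -1/7, -1/4, -1/10, -1/3, -1/9, -1/5]
  C := ![0, -1, 0, 1/4, 0, 2/3, 1/9, 2/5]

theorem stress_eqs (s : Scene (Fin 9) (Fin 8)) (d : Fin 9 × Fin 8 → ℝ)
    (h : ∑ ij ∈ incs, d ij • s.incForm ij = 0) :
    (∀ i, ∑ ij ∈ incs.filter (fun ij => ij.1 = i), d ij * s.A ij.2 = 0) ∧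
    (∀ i, ∑ ij ∈ incs.filter (fun ij => ij.1 = i), d ij = 0) ∧
    (∀ j, ∑ ij ∈ incs.filter (fun ij => ij.2 = j), d ij * s.x ij.1 = 0) ∧
    (∀ j, ∑ ij ∈ incs.filter (fun ij => ij.2 = j), d ij = 0) := by
  have H : ∀ v : Vars (Fin 9) (Fin 8), ∑ ij ∈ incs, d ij * (s.A ij.2 * v.1 ij.1 +
      s.x ij.1 * v.2.2.1 ij.2 + v.2.1 ij.1 + v.2.2.2 ij.2) = 0 := by
    intro v
    have h1 := LinearMap.congr_fun h v
    rw [LinearMap.sum_apply] at h1
    simpa [Scene.incForm] using h1
  refine ⟨fun i => ?_, fun i => ?_, fun j => ?_, fun j => ?_⟩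
  · have h1 := H (Pi.single i 1, 0, 0, 0)
    rw [Finset.sum_filter]
    refine Eq.trans (Finset.sum_congr rfl fun ij _ => ?_) h1
    by_cases hi : ij.1 = i
    · subst hi; simp
    · simp [hi]
  · have h1 := H (0, Pi.single i 1, 0, 0)
    rw [Finset.sum_filter]
    refine Eq.trans (Finset.sum_congr rfl fun ij _ => ?_) h1
    by_cases hi : ij.1 = i
    · subst hi; simp
    · simp [hi]
  · have h1 := H (0, 0, Pi.single j 1, 0)
    rw [Finset.sum_filter]
    refine Eq.trans (Finset.sum_congr rfl fun ij _ => ?_) h1
    by_cases hi : ij.2 = j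
    · subst hi; simp
    · simp [hi]
  · have h1 := H (0, 0, 0, Pi.single j 1)
    rw [Finset.sum_filter]
    refine Eq.trans (Finset.sum_congr rfl fun ij _ => ?_) h1
    by_cases hi : ij.2 = j
    · subst hi; simp
    · simp [hi]

theorem filter_fst :
    incs.filter (fun ij => ij.1 = 0) = {(0,0),(0,2),(0,4)} ∧
    incs.filter (fun ij => ij.1 = 1) = {(1,0),(1,3),(1,6)} ∧
    incs.filter (fun ij => ij.1 = 2) = {(2,0),(2,5),(2,7)} ∧
    incs.filter (fun ij => ij.1 = 3) = {(3,1),(3,3),(3,5)} ∧
    incs.filter (fun ij => ij.1 = 4) = {(4,1),(4,2),(4,7)} ∧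
    incs.filter (fun ij => ij.1 = 5) = {(5,1),(5,4),(5,6)} ∧
    incs.filter (fun ij => ij.1 = 6) = {(6,2),(6,3)} ∧
    incs.filter (fun ij => ij.1 = 7) = {(7,4),(7,5)} ∧
    incs.filter (fun ij => ij.1 = 8) = {(8,6),(8,7)} := by decide +kernel

theorem filter_snd :
    incs.filter (fun ij => ij.2 = 2) = {(0,2),(4,2),(6,2)} ∧
    incs.filter (fun ij => ij.2 = 3) = {(1,3),(3,3),(6,3)} ∧
    incs.filter (fun ij => ij.2 = 4) = {(0,4),(5,4),(7,4)} ∧
    incs.filter (fun ij => ij.2 = 5) = {(2,5),(3,5),(7,5)} ∧
    incs.filter (fun ij => ij.2 = 6) = {(1,6),(5,6),(8,6)} ∧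
    incs.filter (fun ij => ij.2 = 7) = {(2,7),(4,7),(8,7)} := by decide +kernel

theorem sum_two (a b : Fin 9 × Fin 8) (hab : a ≠ b) (f : Fin 9 × Fin 8 → ℝ) :
    ∑ ij ∈ ({a, b} : Finset (Fin 9 × Fin 8)), f ij = f a + f b := Finset.sum_pair hab

theorem sum_three (a b c : Fin 9 × Fin 8) (hab : a ≠ b) (hac : a ≠ c) (hbc : b ≠ c)
    (f : Fin 9 × Fin 8 → ℝ) :
    ∑ ij ∈ ({a, b, c} : Finset (Fin 9 × Fin 8)), f ij = f a + f b + f c := by
  rw [Finset.sum_insert (by simp [hab, hac]), Finset.sum_pair hbc, add_assoc]

theorem scene_independent : scene.Independent ∅ incs := by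
  rw [independent_iff]
  intro c d h
  refine ⟨fun e he => absurd he (Finset.notMem_empty e), ?_⟩
  rw [Finset.sum_empty, zero_add] at h
  obtain ⟨hu, hw, hU, hW⟩ := stress_eqs scene d h
  obtain ⟨f0, f1, f2, f3, f4, f5, f6, f7, f8⟩ := filter_fst
  obtain ⟨g2, g3, g4, g5, g6, g7⟩ := filter_snd
  have u6 := hu 6
  have w6 := hw 6
  have u7 := hu 7
  have w7 := hw 7
  have u8 := hu 8
  have w8 := hw 8
  rw [f6, sum_two _ _ (by decide)] at u6 w6
  rw [f7, sum_two _ _ (by decide)] at u7 w7
  rw [f8, sum_two _ _ (by decide)] at u8 w8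
  have U2 := hU 2
  have W2 := hW 2
  have U3 := hU 3
  have W3 := hW 3
  have U4 := hU 4
  have W4 := hW 4
  have U5 := hU 5
  have W5 := hW 5
  have U6 := hU 6
  have W6 := hW 6
  have U7 := hU 7
  have W7 := hW 7
  rw [g2, sum_three _ _ _ (by decide) (by decide) (by decide)] at U2 W2
  rw [g3, sum_three _ _ _ (by decide) (by decide) (by decide)] at U3 W3
  rw [g4, sum_three _ _ _ (by decide) (by decide) (by decide)] at U4 W4
  rw [g5, sum_three _ _ _ (by decide) (by decide) (by decide)] at U5 W5
  rw [g6, sum_three _ _ _ (by decide) (by decide) (by decide)] at U6 W6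
  rw [g7, sum_three _ _ _ (by decide) (by decide) (by decide)] at U7 W7
  have w0 := hw 0
  have w1 := hw 1
  have w2 := hw 2
  have w3 := hw 3
  have w4 := hw 4
  have w5 := hw 5
  rw [f0, sum_three _ _ _ (by decide) (by decide) (by decide)] at w0
  rw [f1, sum_three _ _ _ (by decide) (by decide) (by decide)] at w1
  rw [f2, sum_three _ _ _ (by decide) (by decide) (by decide)] at w2
  rw [f3, sum_three _ _ _ (by decide) (by decide) (by decide)] at w3
  rw [f4, sum_three _ _ _ (by decide) (by decide) (by decide)] at w4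
  rw [f5, sum_three _ _ _ (by decide) (by decide) (by decide)] at w5
  simp only [scene, Matrix.cons_val] at u6 u7 u8 U2 U3 U4 U5 U6 U7
  have e62 : d (6,2) = 0 := by linarith
  have e63 : d (6,3) = 0 := by linarith
  have e74 : d (7,4) = 0 := by linarith
  have e75 : d (7,5) = 0 := by linarith
  have e86 : d (8,6) = 0 := by linarith
  have e87 : d (8,7) = 0 := by linarith
  have e02 : d (0,2) = 0 := by linarith
  have e42 : d (4,2) = 0 := by linarith
  have e13 : d (1,3) = 0 := by linarith
  have e33 : d (3,3) = 0 := by linarith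
  have e04 : d (0,4) = 0 := by linarith
  have e54 : d (5,4) = 0 := by linarith
  have e25 : d (2,5) = 0 := by linarith
  have e35 : d (3,5) = 0 := by linarith
  have e16 : d (1,6) = 0 := by linarith
  have e56 : d (5,6) = 0 := by linarith
  have e27 : d (2,7) = 0 := by linarith
  have e47 : d (4,7) = 0 := by linarith
  have e00 : d (0,0) = 0 := by linarith
  have e10 : d (1,0) = 0 := by linarith
  have e20 : d (2,0) = 0 := by linarith
  have e31 : d (3,1) = 0 := by linarith
  have e41 : d (4,1) = 0 := by linarith
  have e51 : d (5,1) = 0 := by linarith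
  intro ij hij
  simp only [incs, Finset.mem_insert, Finset.mem_singleton] at hij
  rcases hij with rfl | rfl | rfl | rfl | rfl | rfl | rfl | rfl | rfl | rfl | rfl | rfl | rfl |
    rfl | rfl | rfl | rfl | rfl | rfl | rfl | rfl | rfl | rfl | rfl <;> assumption

/-! ### Dependence at every scene -/

/-- The determinant which vanishes exactly when three points are collinear. -/
def det3 (s : Scene (Fin 9) (Fin 8)) (a b c : Fin 9) : ℝ :=
  (s.x b - s.x a) * (s.y c - s.y a) - (s.x c - s.x a) * (s.y b - s.y a)

/-- Three points on a common line are collinear. -/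
theorem det3_of_on (s : Scene (Fin 9) (Fin 8)) (a b c : Fin 9) (j : Fin 8)
    (ha : s.On a j) (hb : s.On b j) (hc : s.On c j) : det3 s a b c = 0 := by
  unfold Scene.On at ha hb hc
  unfold det3
  linear_combination (s.x b - s.x a) * (hc - ha) - (s.x c - s.x a) * (hb - ha)

/-- If `a ≠ b` are on a line then every point `c` of the line is an affine combination. -/
theorem exists_param (s : Scene (Fin 9) (Fin 8)) (a b c : Fin 9) (j : Fin 8)
    (ha : s.On a j) (hb : s.On b j) (hc : s.On c j) (hab : ¬ (s.x a = s.x b ∧ s.y a = s.y b)) :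
    ∃ t : ℝ, s.x c = (1 - t) * s.x a + t * s.x b ∧ s.y c = (1 - t) * s.y a + t * s.y b := by
  unfold Scene.On at ha hb hc
  have hx : s.x b - s.x a ≠ 0 := by
    intro h
    apply hab
    have h1 : s.x a = s.x b := by linarith
    refine ⟨h1, ?_⟩
    rw [h1] at ha
    linarith
  refine ⟨(s.x c - s.x a) / (s.x b - s.x a), ?_, ?_⟩
  · field_simp
    ring
  · field_simp
    linear_combination (s.x b - s.x a) * (hc - ha) - (s.x c - s.x a) * (hb - ha)

/-- The part of Pappus' theorem which is used: it needs only that the three alternate sides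
`04`, `15`, `23` of the hexagon have distinct end points. -/
theorem pappus (s : Scene (Fin 9) (Fin 8)) (hs : s.Realises incs)
    (h04 : ¬ (s.x 0 = s.x 4 ∧ s.y 0 = s.y 4)) (h15 : ¬ (s.x 1 = s.x 5 ∧ s.y 1 = s.y 5))
    (h23 : ¬ (s.x 2 = s.x 3 ∧ s.y 2 = s.y 3)) : det3 s 6 7 8 = 0 := by
  have on : ∀ i j, (i, j) ∈ incs → s.On i j := fun i j h => hs (i, j) h
  obtain ⟨l, hlx, hly⟩ := exists_param s 0 4 6 2 (on _ _ (by decide)) (on _ _ (by decide))
    (on _ _ (by decide)) h04
  obtain ⟨m, hmx, hmy⟩ := exists_param s 1 5 8 6 (on _ _ (by decide)) (on _ _ (by decide))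
    (on _ _ (by decide)) h15
  obtain ⟨n, hnx, hny⟩ := exists_param s 2 3 7 5 (on _ _ (by decide)) (on _ _ (by decide))
    (on _ _ (by decide)) h23
  have d012 := det3_of_on s 0 1 2 0 (on _ _ (by decide)) (on _ _ (by decide)) (on _ _ (by decide))
  have d345 := det3_of_on s 3 4 5 1 (on _ _ (by decide)) (on _ _ (by decide)) (on _ _ (by decide))
  have d136 := det3_of_on s 1 3 6 3 (on _ _ (by decide)) (on _ _ (by decide)) (on _ _ (by decide))
  have d057 := det3_of_on s 0 5 7 4 (on _ _ (by decide)) (on _ _ (by decide)) (on _ _ (by decide))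
  have d248 := det3_of_on s 2 4 8 7 (on _ _ (by decide)) (on _ _ (by decide)) (on _ _ (by decide))
  unfold det3 at *
  rw [hlx, hly] at d136
  rw [hmx, hmy] at d248
  rw [hnx, hny] at d057
  rw [hlx, hly, hmx, hmy, hnx, hny]
  linear_combination (-(1 - l) * (1 - n) * (1 - m)) * d012 - (l * n * m) * d345
    - (n * (1 - m)) * d136 - (l * (1 - n)) * d248 - ((1 - l) * m) * d057

theorem distForm_mk (s : Scene (Fin 9) (Fin 8)) (i k : Fin 9) :
    s.distForm s(i, k) = s.pairForm i k := rfl

/-- A distance constraint between coincident points has zero form. -/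
theorem ne_of_independent (s : Scene (Fin 9) (Fin 8)) (h : s.Independent dists incs)
    (i k : Fin 9) (he : s(i, k) ∈ dists) : ¬ (s.x i = s.x k ∧ s.y i = s.y k) := by
  rintro ⟨hx, hy⟩
  have h1 := h.ne_zero (Sum.inl ⟨s(i, k), he⟩)
  apply h1
  rw [Sum.elim_inl, distForm_mk]
  ext v <;> simp [Scene.pairForm, hx, hy]

/-- A linear relation between the forms of the triangle `6, 7, 8` is trivial. -/
theorem triangle_of_independent (s : Scene (Fin 9) (Fin 8)) (h : s.Independent dists incs)
    (a b c : ℝ) (habc : a • s.pairForm 6 7 + b • s.pairForm 7 8 + c • s.pairForm 6 8 = 0) :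
    a = 0 := by
  rw [independent_iff] at h
  have h1 := (h (fun e => if e = s(6, 7) then a else if e = s(7, 8) then b else
    if e = s(6, 8) then c else 0) (fun _ => 0) (by
      simp only [zero_smul, Finset.sum_const_zero, add_zero]
      unfold dists
      rw [Finset.sum_insert (by decide), Finset.sum_insert (by decide),
        Finset.sum_insert (by decide), Finset.sum_insert (by decide),
        Finset.sum_insert (by decide), Finset.sum_singleton]
      rw [if_neg (by decide), if_neg (by decide), if_neg (by decide),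
        if_neg (by decide), if_neg (by decide), if_neg (by decide),
        if_neg (by decide), if_neg (by decide), if_neg (by decide),
        if_pos rfl, if_neg (by decide), if_pos rfl, if_neg (by decide), if_neg (by decide),
        if_pos rfl, distForm_mk, distForm_mk, distForm_mk, ← habc]
      simp only [zero_smul, zero_add]
      abel)).1 s(6, 7) (by decide)
  simpa using h1

theorem not_independent (s : Scene (Fin 9) (Fin 8)) (hs : s.Realises incs) :
    ¬ s.Independent dists incs := by
  intro h
  have hdet := pappus s hs (ne_of_independent s h 0 4 (by decide))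
    (ne_of_independent s h 1 5 (by decide)) (ne_of_independent s h 2 3 (by decide))
  have h68 := ne_of_independent s h 6 8 (by decide)
  have h67 := ne_of_independent s h 6 7 (by decide)
  unfold det3 at hdet
  -- `p 7 = p 6 + t (p 8 - p 6)`
  obtain ⟨t, htx, hty⟩ : ∃ t : ℝ, s.x 7 = s.x 6 + t * (s.x 8 - s.x 6) ∧
      s.y 7 = s.y 6 + t * (s.y 8 - s.y 6) := by
    by_cases hx : s.x 8 - s.x 6 = 0
    · have hy : s.y 8 - s.y 6 ≠ 0 := by
        intro hy
        exact h68 ⟨by linarith, by linarith⟩
      refine ⟨(s.y 7 - s.y 6) / (s.y 8 - s.y 6), ?_, ?_⟩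
      · rw [hx, zero_mul, sub_zero] at hdet
        rcases mul_eq_zero.1 hdet with h1 | h1
        · rw [hx]; linarith
        · exact absurd h1 hy
      · field_simp
        ring
    · refine ⟨(s.x 7 - s.x 6) / (s.x 8 - s.x 6), ?_, ?_⟩
      · field_simp
        ring
      · field_simp
        linarith
  have ht : t ≠ 0 := by
    rintro rfl
    exact h67 ⟨by linarith, by linarith⟩
  have h1 := triangle_of_independent s h (1 - t) t (-(t * (1 - t))) (by
    ext v <;> simp [Scene.pairForm, htx, hty] <;> ring)
  have ht1 : t = 1 := by linarith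
  have h78 := ne_of_independent s h 7 8 (by decide)
  subst ht1
  exact h78 ⟨by linarith, by linarith⟩

theorem scene_realises : scene.Realises incs := by
  intro ij hij
  simp only [incs, Finset.mem_insert, Finset.mem_singleton] at hij
  unfold Scene.On
  rcases hij with rfl | rfl | rfl | rfl | rfl | rfl | rfl | rfl | rfl | rfl | rfl | rfl | rfl |
    rfl | rfl | rfl | rfl | rfl | rfl | rfl | rfl | rfl | rfl | rfl <;>
    (simp only [scene, Matrix.cons_val]; norm_num)

/-- Rational coordinates of the scene. -/
def xq : Fin 9 → ℚ := ![0, 1, 2, 5, 7, 10, 7/3, 20/7, 13/4]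

/-- Rational coordinates of the scene. -/
def yq : Fin 9 → ℚ := ![0, 0, 0, 1, 1, 1, 1/3, 2/7, 1/4]

/-- Rational coordinates of the scene. -/
def Aq : Fin 8 → ℚ := ![0, 0, -1/7, -1/4, -1/10, -1/3, -1/9, -1/5]

/-- Rational coordinates of the scene. -/
def Cq : Fin 8 → ℚ := ![0, -1, 0, 1/4, 0, 2/3, 1/9, 2/5]

theorem scene_x (i : Fin 9) : scene.x i = (xq i : ℝ) := by
  fin_cases i <;> simp [scene, xq]

theorem scene_y (i : Fin 9) : scene.y i = (yq i : ℝ) := by
  fin_cases i <;> simp [scene, yq]

theorem scene_A (i : Fin 8) : scene.A i = (Aq i : ℝ) := by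
  fin_cases i <;> simp [scene, Aq]

theorem scene_C (i : Fin 8) : scene.C i = (Cq i : ℝ) := by
  fin_cases i <;> simp [scene, Cq]

theorem xq_inj : ∀ i k : Fin 9, xq i = xq k → i = k := by decide +kernel

theorem lines_inj : ∀ i k : Fin 8, Aq i = Aq k → Cq i = Cq k → i = k := by decide +kernel

theorem on_iff_q : ∀ (i : Fin 9) (j : Fin 8), Aq j * xq i + yq i + Cq j = 0 ↔ (i, j) ∈ incs := by
  decide +kernel

theorem scene_on_iff (i : Fin 9) (j : Fin 8) : scene.On i j ↔ (i, j) ∈ incs := by
  unfold Scene.On
  rw [scene_A, scene_C, scene_x, scene_y, ← on_iff_q]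
  exact_mod_cast Iff.rfl

theorem points_injective : Function.Injective (fun i => (scene.x i, scene.y i)) := by
  intro i k h
  have h1 : scene.x i = scene.x k := (Prod.ext_iff.1 h).1
  rw [scene_x, scene_x] at h1
  exact xq_inj i k (by exact_mod_cast h1)

theorem lines_injective : Function.Injective (fun j => (scene.A j, scene.C j)) := by
  intro i k h
  have h1 : scene.A i = scene.A k := (Prod.ext_iff.1 h).1
  have h2 : scene.C i = scene.C k := (Prod.ext_iff.1 h).2
  rw [scene_A, scene_A] at h1
  rw [scene_C, scene_C] at h2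
  exact lines_inj i k (by exact_mod_cast h1) (by exact_mod_cast h2)

theorem no_digon : ∀ i k : Fin 9, ∀ j l : Fin 8, i ≠ k → j ≠ l →
    (i, j) ∈ incs → (k, j) ∈ incs → (i, l) ∈ incs → (k, l) ∉ incs := by decide +kernel

/-! ### The result -/

/-- **Disproof of the count characterisation.** There are an incidence structure `(V, F; I)` with
9 vertices and 8 faces, in which two vertices are never on two common faces, and a set `E` of
distance constraints on `V`, such that
* `I` is independent at a 2-scene whose points are pairwise distinct, whose lines are pairwise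
  distinct and in which exactly the incidences of `I` hold; in particular `(V, F; I)` is
  independent for plane incidence;
* `|E'| + |I'| ≤ 2|V'| + 2|F'| - 3` for all `E' ⊆ E`, `I' ⊆ I`, not both empty;
* there is no 2-scene realising `(V, F; I)` at which `E ∪ I` is independent. -/
theorem result :
    ∃ (I : Finset (Fin 9 × Fin 8)) (E : Finset (Sym2 (Fin 9))),
      (∀ e ∈ E, ¬ e.IsDiag) ∧ LinearSpace I ∧
      (∃ s : Scene (Fin 9) (Fin 8), s.Realises I ∧ s.Nondegenerate I ∧ s.Independent ∅ I) ∧
      CountHolds E I ∧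
      ¬ ∃ s : Scene (Fin 9) (Fin 8), s.Realises I ∧ s.Independent E I :=
  ⟨incs, dists, by decide +kernel, no_digon,
    ⟨scene, scene_realises, ⟨points_injective, lines_injective, scene_on_iff⟩, scene_independent⟩,
    countHolds, fun ⟨s, hs, hi⟩ => not_independent s hs hi⟩

/-- The question Q1 itself: for every finite incidence structure which is independent for plane
incidence and every set `E` of distance constraints, `E ∪ I` is independent at some 2-scene
realising the structure if and only if the count holds. -/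
def Q1 : Prop :=
  ∀ (V F : Type) [Fintype V] [Fintype F] [DecidableEq V] [DecidableEq F]
    (I : Finset (V × F)) (E : Finset (Sym2 V)), (∀ e ∈ E, ¬ e.IsDiag) →
    IndependentForPlaneIncidence I →
    ((∃ s : Scene V F, s.Realises I ∧ s.Independent E I) ↔ CountHolds E I)

/-- In particular the answer to Q1 is negative. -/
theorem not_Q1 : ¬ Q1 := by
  intro h
  obtain ⟨I, E, hE, -, ⟨s, hs, -, hi⟩, hc, hn⟩ := result
  exact hn ((h (Fin 9) (Fin 8) I E hE ⟨s, hs, hi⟩).2 hc)

end Pool.Agent.Results.MP_b5aa09_co.PappusDisproof
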